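import Pool.Agent.helper35.BQ.Spec

/-!
# Project bq (MP_baa4d7_al), row KEC: the key lemma if the quotient is generated by the image of `y`
-/

set_option autoImplicit false

open Pool.Agent.helper58.DC Pool.Agent.DI Pool.Agent.DR Pool.Agent.NQ

namespace Pool.Agent.BQ

theorem KEC_cz {Γ : Type} [Group Γ] {P Q : Subgroup Γ} (h : Q ≤ P) : cz P ≤ nz Q := by
  intro x hx
  have hc : ∀ q ∈ Q, x * q * x⁻¹ = q := by
    intro q hq
    have h1 := Subgroup.mem_centralizer_iff.1 hx q (h hq)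
    rw [← h1, mul_inv_cancel_right]
  rw [Subgroup.mem_normalizer_iff]
  intro g
  constructor
  · intro hg
    change g ∈ Q at hg
    change x * g * x⁻¹ ∈ Q
    rw [hc g hg]
    exact hg
  · intro hg
    change x * g * x⁻¹ ∈ Q at hg
    change g ∈ Q
    have h2 := hc _ hg
    have h3 : x * g * x⁻¹ = g := by
      have h4 : x * (x * g * x⁻¹) = x * g := by
        calc x * (x * g * x⁻¹) = (x * (x * g * x⁻¹) * x⁻¹) * x := by group
          _ = (x * g * x⁻¹) * x := by rw [h2]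
          _ = x * g := by group
      exact mul_left_cancel h4
    rwa [h3] at hg

theorem KEC (hPWR : PWR_stmt) (hVAN : VAN_stmt) (hOVB : OVB_stmt) (hA13 : A13_stmt)
    (hB0 : B0_stmt) (hB2 : B2_stmt) (hB10 : B10_stmt) (hB11 : B11_stmt) (hB13 : B13_stmt)
    (hB14 : B14_stmt) (hC1 : C1_stmt) (hC3 : C3_stmt) (hC7 : C7_stmt) (hC8 : C8_stmt)
    (hC16 : C16_stmt) : KEC_stmt := by
  classical
  intro G E A _ _ _ _ _ X p _ M hM hpM y hy χ hχ φ hφ hex hne C hC ψ hψ hind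
  obtain ⟨χ', hχ', hind', hsum⟩ := hex
  have hcycA : IsCyclic A := ⟨⟨X.proj y, hy⟩⟩
  have hCyc : CycQ X.inc.range := hB0.2.2.2 G E A X hcycA
  have hnorm : X.inc.range.Normal := hCyc.1
  obtain ⟨P, hPC, hPmax, hPp, hPn, hnP, hcP⟩ := hA13 G p C hC
  obtain ⟨-, hB14a, hB14b⟩ := hB14 G E X.inc X.inc_injective C
  obtain ⟨-, hB13a, -, hB13b, -, hB13c⟩ := hB13 G E p X.inc X.inc_injective (nrm C)
  obtain ⟨hrefl, hsymm, htrans, -⟩ := hC1 p M hM hpM
  obtain ⟨D, hD⟩ : ∃ D : Finset (Subgroup E), D = cmap X.inc C := ⟨_, rfl⟩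
  obtain ⟨L, hL⟩ : ∃ L : Subgroup E, L = nrm D := ⟨_, rfl⟩
  have hmap : (nrm C).map X.inc = L ⊓ X.inc.range := by
    rw [hB14a ⟨P, hPC⟩, hL, hD, inf_comm]
  have hψ' : ext0 X.inc ψ ∈ IrrOn (L ⊓ X.inc.range) := by
    rw [← hmap]
    exact (hB13a ψ).1 hψ
  have hQL : P.map X.inc ≤ L := by
    have h1 : P.map X.inc ≤ (nrm C).map X.inc := Subgroup.map_mono hPn
    rw [hmap] at h1
    exact h1.trans inf_le_left
  have hQD : P.map X.inc ∈ D := by
    rw [hD]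
    exact Finset.mem_image_of_mem _ hPC
  have hLQ : L ≤ nz (P.map X.inc) := by
    rw [hL]
    exact iInf₂_le (P.map X.inc) hQD
  have hcL : cz (P.map X.inc) ≤ L := by
    rw [hL]
    refine le_iInf₂ fun R hR => ?_
    rw [hD] at hR
    obtain ⟨R₀, hR₀, rfl⟩ := Finset.mem_image.1 hR
    exact KEC_cz (Subgroup.map_mono (hPmax R₀ hR₀))
  have hQp : IsPGroup p (P.map X.inc) := hPp.map X.inc
  -- the character `ψ₁`
  obtain ⟨ψ₁, hψ₁, hover⟩ : ∃ ψ₁ ∈ IrrOn L, OverP (L ⊓ X.inc.range) L ψ₁ (ext0 X.inc ψ) := by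
    have h1 := (hB10 E X.inc.range L hCyc).2.1 _ hψ'
    have h2 : 0 < Nat.card (stF L (ext0 X.inc ψ)) := Nat.card_pos
    rw [← h1] at h2
    have h3 := Nat.pos_of_ne_zero (left_ne_zero_of_mul h2.ne')
    obtain ⟨⟨ψ₁, h4, h5⟩⟩ := (Nat.card_pos_iff.1 h3).1
    exact ⟨ψ₁, h4, h5⟩
  have hmult : IsMult M ψ₁ := hC7 E p M hM hpM (P.map X.inc) L hQL hLQ hcL hQp ψ₁ hψ₁
  obtain ⟨φ₁, hφ₁, hind₁⟩ := hC8 E p M hM hpM ψ₁ hmult
  have hind₁' : ∀ g, Mcong M (omega ψ₁ g) (omega φ₁ g) := hind₁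
  have hcong : ∀ g ∈ X.inc.range, Mcong M (omega φ g) (omega φ₁ g) := by
    intro g hg
    have e1 : Mcong M (omega φ g) (omega (ext0 X.inc χ) g) :=
      hOVB G E A X p M hM hpM hcycA φ hφ χ' hχ' χ hχ hind' hsum g hg
    have e2 : Mcong M (omega (ext0 X.inc ψ) g) (omega (ext0 X.inc χ) g) :=
      hC16 G E p M hM hpM X.inc X.inc_injective ψ χ hind g
    have e3 : omega ψ₁ g = omega (ext0 X.inc ψ) g :=
      hB11 E X.inc.range L hnorm ψ₁ hψ₁ _ hψ' hover g hg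
    have e4 := hind₁' g
    rw [e3] at e4
    exact htrans _ _ _ e1 (htrans _ _ _ (hsymm _ _ e2) e4)
  have hne₁ : ¬ Mcong M (omega φ₁ y) 0 :=
    hPWR E p M hM hpM X.inc.range hnorm (hB0.1 E X.inc.range hCyc) φ hφ φ₁ hφ₁ hcong y hne
  have hne₂ : ¬ Mcong M (omega ψ₁ y) 0 := fun h =>
    hne₁ (htrans _ _ _ (hsymm _ _ (hind₁' y)) h)
  obtain ⟨x, hxy, hx⟩ : ∃ x ∈ conjugatesOf y, ψ₁ x ≠ 0 := by
    by_contra hcon
    push Not at hcon
    apply hne₂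
    have h1 : omega ψ₁ y = 0 := by
      unfold omega
      rw [finsum_mem_congr rfl hcon, finsum_mem_zero, zero_div]
    rw [h1]
    exact hrefl 0
  have hxL : x ∈ L := by
    by_contra h
    exact hx (hψ₁.1 x h)
  have hproj : X.proj x = X.proj y := by
    obtain ⟨c, hc⟩ := isConj_iff.1 (show IsConj y x from hxy)
    obtain ⟨k, hk⟩ := Subgroup.mem_zpowers_iff.1 (hy (X.proj c))
    rw [← hc, map_mul, map_mul, map_inv, ← hk, (Commute.refl (X.proj y)).zpow_left k |>.eq,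
      mul_inv_cancel_right]
  obtain ⟨-, hst⟩ := hVAN E X.inc.range L hCyc ψ₁ hψ₁ _ hψ' hover x hxL hx
  rw [hB13c ψ (X.act x) x (X.act_spec x)] at hst
  refine ⟨x, ⟨?_, hB13b _ _ hst⟩, hproj⟩
  refine (hB14b (X.act x) x (X.act_spec x) hC.chain).1 ?_
  rw [← hD, ← hL]
  exact hxL

end Pool.Agent.BQ
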