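import Pool.Agent.helper7.BQ.Spec
import Pool.Agent.helper85.TG.VA1

set_option autoImplicit false

namespace Pool.Agent.BQ

open Finset ArithmeticFunction MeasureTheory
open Pool.Agent.helper74.TG (ee gb)

private lemma MINR_gb {X β : ℝ} (hβ : 0 < |β - round β|) : gb X β ≤ 1 / (2 * |β - round β|) := by
  unfold gb
  split_ifs with h
  · rw [le_div_iff₀ (by positivity)]
    nlinarith
  · exact le_rfl

/-- lower bound for the distance -/
private lemma MINR_dist (Q q d : ℕ) (a : ℤ) (α : ℝ) (hQ : Q < q) (hc : IsCoprime a (q : ℤ))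
    (hα : |α - a / q| * (2 * Q * q) ≤ 1) (hd0 : 0 < d) (hd : d ≤ Q) :
    1 / (2 * (q : ℝ)) ≤ |(d : ℝ) * α - round ((d : ℝ) * α)| := by
  have hq : (0 : ℝ) < q := by exact_mod_cast (by omega : 0 < q)
  set m : ℤ := round ((d : ℝ) * α) with hm
  have hne : (d : ℤ) * a - m * q ≠ 0 := by
    intro h0
    have h1 : (q : ℤ) ∣ (d : ℤ) * a := ⟨m, by linarith⟩
    have h2 : (q : ℤ) ∣ (d : ℤ) := hc.symm.dvd_of_dvd_mul_right h1
    have h3 : q ∣ d := by exact_mod_cast h2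
    have := Nat.le_of_dvd hd0 h3
    omega
  have h1 : (1 : ℝ) ≤ |(d : ℝ) * a - m * q| := by
    have : (1 : ℤ) ≤ |(d : ℤ) * a - m * q| := Int.one_le_abs hne
    exact_mod_cast this
  have h2 : (d : ℝ) * |α - a / q| ≤ 1 / (2 * q) := by
    rw [le_div_iff₀ (by positivity)]
    have hdQ : (d : ℝ) ≤ Q := by exact_mod_cast hd
    have h0 : 0 ≤ |α - a / q| := abs_nonneg _
    calc (d : ℝ) * |α - a / q| * (2 * q) ≤ (Q : ℝ) * |α - a / q| * (2 * q) := by
          apply mul_le_mul_of_nonneg_right _ (by positivity)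
          exact mul_le_mul_of_nonneg_right hdQ h0
      _ = |α - a / q| * (2 * Q * q) := by ring
      _ ≤ 1 := hα
  have h3 : 1 / (q : ℝ) ≤ |(d : ℝ) * (a / q) - m| := by
    have e : (d : ℝ) * (a / q) - m = ((d : ℝ) * a - m * q) / q := by
      field_simp
    rw [e, abs_div, abs_of_pos hq]
    exact div_le_div_of_nonneg_right h1 hq.le
  have h4 : |(d : ℝ) * (a / q) - m| ≤ |(d : ℝ) * α - m| + (d : ℝ) * |α - a / q| := by
    have e : (d : ℝ) * (a / q) - m = ((d : ℝ) * α - m) - (d : ℝ) * (α - a / q) := by ring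
    rw [e]
    refine (abs_sub _ _).trans ?_
    have e2 : |(d : ℝ) * (α - a / q)| = (d : ℝ) * |α - a / q| := by
      rw [abs_mul, Nat.abs_cast]
    rw [e2]
  have e5 : 1 / (2 * (q : ℝ)) = 1 / (q : ℝ) - 1 / (2 * q) := by
    field_simp
    ring
  rw [e5]
  linarith

/-- the sum over the multiples of `d` -/
private lemma MINR_mult (Q q y B d : ℕ) (a : ℤ) (α : ℝ) (hQ : Q < q) (hc : IsCoprime a (q : ℤ))
    (hα : |α - a / q| * (2 * Q * q) ≤ 1) (hd0 : 0 < d) (hd : d ≤ Q) :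
    ‖∑ n ∈ (Ioc y (y + B)).filter (fun n : ℕ => (d : ℤ) ∣ (n : ℤ)), ee (n * α)‖ ≤ q := by
  have hq : (0 : ℝ) < q := by exact_mod_cast (by omega : 0 < q)
  have e : ∑ n ∈ (Ioc y (y + B)).filter (fun n : ℕ => (d : ℤ) ∣ (n : ℤ)), ee (n * α) =
      ∑ k ∈ Ioc (y / d) ((y + B) / d), ee (k * ((d : ℝ) * α)) := by
    symm
    apply sum_bij (fun (k : ℕ) _ => d * k)
    · intro k hk
      rw [mem_Ioc] at hk
      rw [mem_filter, mem_Ioc]
      refine ⟨⟨?_, ?_⟩, ?_⟩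
      · have := (Nat.div_lt_iff_lt_mul hd0).mp hk.1
        rw [mul_comm]; exact this
      · have := (Nat.le_div_iff_mul_le hd0).mp hk.2
        rw [mul_comm]; exact this
      · exact ⟨(k : ℤ), by push_cast; ring⟩
    · intro k1 _ k2 _ h
      exact Nat.eq_of_mul_eq_mul_left hd0 h
    · intro n hn
      rw [mem_filter, mem_Ioc] at hn
      obtain ⟨⟨h1, h2⟩, h3⟩ := hn
      have h3' : d ∣ n := by exact_mod_cast h3
      obtain ⟨k, rfl⟩ := h3'
      refine ⟨k, ?_, rfl⟩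
      rw [mem_Ioc]
      constructor
      · rw [Nat.div_lt_iff_lt_mul hd0, mul_comm]; exact h1
      · rw [Nat.le_div_iff_mul_le hd0, mul_comm]; exact h2
    · intro k _
      congr 1
      push_cast
      ring
  rw [e]
  have hdist := MINR_dist Q q d a α hQ hc hα hd0 hd
  have hpos : 0 < |(d : ℝ) * α - round ((d : ℝ) * α)| := lt_of_lt_of_le (by positivity) hdist
  have hle : y / d ≤ (y + B) / d := Nat.div_le_div_right (by omega)
  refine (Pool.Agent.helper74.TG.geom_bound _ _ hle _).trans ((MINR_gb hpos).trans ?_)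
  rw [div_le_iff₀ (by positivity)]
  have : 1 / (2 * (q : ℝ)) * (2 * q) = 1 := by field_simp
  nlinarith

private lemma MINR_cR (Q q y B q' : ℕ) (a : ℤ) (α : ℝ) (hQ : Q < q) (hc : IsCoprime a (q : ℤ))
    (hα : |α - a / q| * (2 * Q * q) ≤ 1) (hq' : q' ≤ Q) :
    ‖∑ n ∈ Ioc y (y + B), (cR q' (n : ℤ) : ℂ) * ee (n * α)‖ ≤ (Q : ℝ) ^ 2 * q := by
  have e : ∑ n ∈ Ioc y (y + B), (cR q' (n : ℤ) : ℂ) * ee (n * α) =
      ∑ d ∈ q'.divisors, ((d : ℂ) * ((moebius (q' / d) : ℤ) : ℂ)) *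
        ∑ n ∈ (Ioc y (y + B)).filter (fun n : ℕ => (d : ℤ) ∣ (n : ℤ)), ee (n * α) := by
    have e1 : ∀ n ∈ Ioc y (y + B), (cR q' (n : ℤ) : ℂ) * ee (n * α) =
        ∑ d ∈ q'.divisors, if (d : ℤ) ∣ (n : ℤ) then
          ((d : ℂ) * ((moebius (q' / d) : ℤ) : ℂ)) * ee (n * α) else 0 := by
      intro n _
      unfold cR
      rw [sum_filter]
      push_cast
      rw [sum_mul]
      apply sum_congr rfl
      intro d _
      split_ifs <;> simp
    rw [sum_congr rfl e1, sum_comm]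
    apply sum_congr rfl
    intro d _
    rw [mul_sum, sum_filter]
  rw [e]
  refine (norm_sum_le _ _).trans ?_
  have hb : ∀ d ∈ q'.divisors, ‖((d : ℂ) * ((moebius (q' / d) : ℤ) : ℂ)) *
      ∑ n ∈ (Ioc y (y + B)).filter (fun n : ℕ => (d : ℤ) ∣ (n : ℤ)), ee (n * α)‖ ≤ (Q : ℝ) * q := by
    intro d hd
    have hdd := Nat.divisor_le hd
    have hd0 := Nat.pos_of_mem_divisors hd
    rw [norm_mul, norm_mul]
    have h1 : ‖(d : ℂ)‖ ≤ Q := by
      rw [Complex.norm_natCast]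
      exact_mod_cast (by omega : d ≤ Q)
    have h2 : ‖((moebius (q' / d) : ℤ) : ℂ)‖ ≤ 1 := by
      rw [Complex.norm_intCast]
      exact_mod_cast abs_moebius_le_one
    have h3 := MINR_mult Q q y B d a α hQ hc hα hd0 (by omega)
    calc ‖(d : ℂ)‖ * ‖((moebius (q' / d) : ℤ) : ℂ)‖ *
          ‖∑ n ∈ (Ioc y (y + B)).filter (fun n : ℕ => (d : ℤ) ∣ (n : ℤ)), ee (n * α)‖
        ≤ ((Q : ℝ) * 1) * q := by
          apply mul_le_mul _ h3 (norm_nonneg _) (by positivity)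
          exact mul_le_mul h1 h2 (norm_nonneg _) (by positivity)
      _ = (Q : ℝ) * q := by ring
  refine (sum_le_sum hb).trans ?_
  rw [sum_const, nsmul_eq_mul]
  have hcard : (q'.divisors.card : ℝ) ≤ Q := by
    exact_mod_cast (Nat.card_divisors_le_self q').trans hq'
  calc (q'.divisors.card : ℝ) * ((Q : ℝ) * q) ≤ (Q : ℝ) * ((Q : ℝ) * q) :=
        mul_le_mul_of_nonneg_right hcard (by positivity)
    _ = (Q : ℝ) ^ 2 * q := by ring

theorem MINR : MINR_stmt := by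
  intro Q q y B a α hQ hc hα
  unfold Sw
  have e : ∑ n ∈ Ioc y (y + B), ((Lsh Q (n : ℤ) : ℝ) : ℂ) * ee (n * α) =
      ∑ q' ∈ Ioc 0 Q, ((((moebius q' : ℤ) : ℝ) / (Nat.totient q' : ℝ) : ℝ) : ℂ) *
        ∑ n ∈ Ioc y (y + B), (cR q' (n : ℤ) : ℂ) * ee (n * α) := by
    have e1 : ∀ n ∈ Ioc y (y + B), ((Lsh Q (n : ℤ) : ℝ) : ℂ) * ee (n * α) =
        ∑ q' ∈ Ioc 0 Q, ((((moebius q' : ℤ) : ℝ) / (Nat.totient q' : ℝ) : ℝ) : ℂ) *
          ((cR q' (n : ℤ) : ℂ) * ee (n * α)) := by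
      intro n _
      unfold Lsh
      rw [Complex.ofReal_sum, sum_mul]
      apply sum_congr rfl
      intro q' _
      rw [Complex.ofReal_mul, mul_assoc]
    rw [sum_congr rfl e1, sum_comm]
    apply sum_congr rfl
    intro q' _
    rw [mul_sum]
  show ‖∑ n ∈ Ioc y (y + B), ((Lsh Q (n : ℤ) : ℝ) : ℂ) * ee (n * α)‖ ≤ _
  rw [e]
  refine (norm_sum_le _ _).trans ?_
  have hb : ∀ q' ∈ Ioc 0 Q, ‖((((moebius q' : ℤ) : ℝ) / (Nat.totient q' : ℝ) : ℝ) : ℂ) *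
      ∑ n ∈ Ioc y (y + B), (cR q' (n : ℤ) : ℂ) * ee (n * α)‖ ≤ (Q : ℝ) ^ 2 * q := by
    intro q' hq'
    rw [mem_Ioc] at hq'
    have h1 := MINR_cR Q q y B q' a α hQ hc hα hq'.2
    rw [norm_mul]
    have h2 : ‖((((moebius q' : ℤ) : ℝ) / (Nat.totient q' : ℝ) : ℝ) : ℂ)‖ ≤ 1 := by
      rw [Complex.norm_real, Real.norm_eq_abs, abs_div, Nat.abs_cast]
      have ht : (1 : ℝ) ≤ (Nat.totient q' : ℝ) := by
        exact_mod_cast Nat.totient_pos.mpr hq'.1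
      rw [div_le_one (by linarith)]
      have h3 : |((moebius q' : ℤ) : ℝ)| ≤ 1 := by
        exact_mod_cast abs_moebius_le_one
      linarith
    calc ‖((((moebius q' : ℤ) : ℝ) / (Nat.totient q' : ℝ) : ℝ) : ℂ)‖ *
          ‖∑ n ∈ Ioc y (y + B), (cR q' (n : ℤ) : ℂ) * ee (n * α)‖
        ≤ 1 * ((Q : ℝ) ^ 2 * q) := mul_le_mul h2 h1 (norm_nonneg _) zero_le_one
      _ = (Q : ℝ) ^ 2 * q := one_mul _
  refine (sum_le_sum hb).trans ?_
  rw [sum_const, Nat.card_Ioc, nsmul_eq_mul]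
  have : (Q : ℝ) * ((Q : ℝ) ^ 2 * q) = (Q : ℝ) ^ 3 * q := by ring
  simp only [Nat.sub_zero]
  linarith

end Pool.Agent.BQ
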